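import Pool.Agent.Helper73.Stab.HurB

/-! The class of a loop in `BSU` in a theory over `BU`: additivity. -/

open CategoryTheory Topology Filter Set Opposite

noncomputable section

namespace Pool.Agent.Helper1.Stab

namespace HurP

open Pool.Agent.Helper9.Stab

section

variable {X : Type} [TopologicalSpace X] {x0 : X} (a : C(X, BG Set.univ))
  (ha : a x0 = BG.pt Set.univ)

/-- `ℝ^4 × pt` -/
abbrev W4 : LC := (LC.rpow (Fin (3 + 1))).prod LC.point

theorem W4_compact : IsCompact ((Set.pi univ (fun _ : Fin (3 + 1) => Icc (-3 : ℝ) 3)) ×ˢ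
    (univ : Set PUnit)) :=
  (isCompact_univ_pi fun _ => isCompact_Icc).prod isCompact_univ

theorem kap_ne_of {r : Fin (3 + 1) → ℝ}
    (h : (r, PUnit.unit) ∉ (Set.pi univ (fun _ : Fin (3 + 1) => Icc (-3 : ℝ) 3)) ×ˢ
      (univ : Set PUnit)) : kap33 r ≠ 1 := by
  rw [kap_supp33 fun hr => h ⟨hr, trivial⟩]
  norm_num

include ha in
/-- a family of loops as a pointed map -/
theorem fam_infty (Φ : unitInterval × (Fin (3 + 1) → unitInterval) → X)
    (h : ∀ l u, u ∈ Cube.boundary (Fin (3 + 1)) → Φ (l, u) = x0)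
    (s : unitInterval × (Fin (3 + 1) → ℝ) → Fin (3 + 1) → unitInterval)
    (hb : ∀ t r, kap33 r ≠ 1 → s (t, r) ∈ Cube.boundary (Fin (3 + 1))) :
    Tendsto (fun y : LC.I.prod W4 => a (Φ (y.1, s (y.1, y.2.1)))) (cocompact (LC.I.prod W4))
      (𝓝 (BG.pt Set.univ)) := by
  refine tendsto_nhds_of_eventually_eq ?_
  filter_upwards [((isCompact_univ (X := unitInterval)).prod W4_compact).compl_mem_cocompact]
    with y hy
  have h1 : kap33 y.2.1 ≠ 1 := kap_ne_of fun h => hy ⟨trivial, h⟩
  rw [h _ _ (hb _ _ h1), ha]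

/-- the pointed map of a loop -/
def fW (α : GenLoop (Fin (3 + 1)) X x0) : PMap W4 YU where
  toFun w := a (α (strR w.1))
  cont := a.continuous.comp (α.1.continuous.comp (continuous_strR.comp continuous_fst))
  infty := by
    refine tendsto_nhds_of_eventually_eq ?_
    filter_upwards [W4_compact.compl_mem_cocompact] with w hw
    have h1 : kap33 w.1 ≠ 1 := kap_ne_of fun h => hw h
    have h2 := sH_bd33 h1 0
    rw [sH_zero33] at h2
    have h3 : α (strR w.1) = x0 := α.2 _ h2
    rw [h3, ha]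

theorem fW_homotopic {α β : GenLoop (Fin (3 + 1)) X x0} (h : GenLoop.Homotopic α β) :
    (fW a ha α).Homotopic (fW a ha β) := by
  obtain ⟨F⟩ := h
  have hF : ∀ (l : unitInterval) (u : Fin (3 + 1) → unitInterval),
      u ∈ Cube.boundary (Fin (3 + 1)) → F (l, u) = x0 := by
    intro l u hu
    rw [F.eq_fst l hu]
    exact α.2 u hu
  refine ⟨⟨fun y => a (F (y.1, strR y.2.1)), a.continuous.comp (F.continuous.comp
    (continuous_fst.prodMk (continuous_strR.comp (continuous_fst.comp continuous_snd)))), ?_⟩,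
    fun w => ?_, fun w => ?_⟩
  · exact fam_infty a ha (fun y => F y) hF (fun y => strR y.2) (by
      intro t r h
      have h1 := sH_bd33 (r := r) h 0
      rw [sH_zero33] at h1
      exact h1)
  · change a (F (0, strR w.1)) = a (α (strR w.1))
    rw [F.apply_zero]
    rfl
  · change a (F (1, strR w.1)) = a (β (strR w.1))
    rw [F.apply_one]
    rfl

theorem fW_add (α β : GenLoop (Fin (3 + 1)) X x0) :
    (fW a ha (GenLoop.transAt 0 α β)).Homotopic
      (((fW a ha α).copair (fW a ha β)).comp (pinchW33 3 LC.point)) := by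
  set γ := GenLoop.transAt 0 α β with hγ
  refine ⟨⟨fun y => a (γ (sH33 (y.1, y.2.1))), a.continuous.comp (γ.1.continuous.comp
    (continuous_sH33.comp (continuous_fst.prodMk (continuous_fst.comp continuous_snd)))), ?_⟩,
    fun w => ?_, fun w => ?_⟩
  · exact fam_infty a ha (fun y => γ y.2) (fun _ u hu => γ.2 u hu)
      (fun y => sH33 y) (fun t r h => sH_bd33 h t)
  · change a (γ (sH33 ((0 : unitInterval), w.1))) = a (γ (strR w.1))
    rw [sH_zero33]
  · change a (γ (sH33 ((1 : unitInterval), w.1))) =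
      ((fW a ha α).copair (fW a ha β)).plus (pinchW33 3 LC.point w)
    rw [sH_one33]
    rcases lt_trichotomy (w.1 0) 0 with h | h | h
    · rw [pinchW_neg33 h, s_neg33 α β h]
      rfl
    · rw [pinchW_zero33 h, s_zero33 α β h]
      exact ha
    · rw [pinchW_pos33 h, s_pos33 α β h]
      rfl

/-- `ℂ² = ℝ^4 × pt` -/
def hC : LC.cpow (Fin 2) ≃ₜ W4 := (realifyH 2).trans (Homeomorph.prodPUnit (Fin 4 → ℝ)).symm

/-- the pointed map of a loop -/
def fC (α : GenLoop (Fin (3 + 1)) X x0) : PMap (LC.cpow (Fin 2)) YU :=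
  (fW a ha α).comp (PMap.ofHomeo hC)

theorem fC_homotopic {α β : GenLoop (Fin (3 + 1)) X x0} (h : GenLoop.Homotopic α β) :
    (fC a ha α).Homotopic (fC a ha β) :=
  PMap.Homotopic.comp_left (fW_homotopic a ha h) _

theorem pinchAt_trans {V W K : LC} (h : V ≃ₜ W) (φ : W ≃ₜ LC.R.prod K) {Y : PT} (f g : PMap W Y) :
    ((f.comp (PMap.ofHomeo h)).copair (g.comp (PMap.ofHomeo h))).comp (pinchAt33 (h.trans φ)) =
      ((f.copair g).comp (pinchAt33 φ)).comp (PMap.ofHomeo h) := by
  ext v
  change ((f.comp (PMap.ofHomeo h)).copair (g.comp (PMap.ofHomeo h))).plus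
      (((PMap.ofHomeo (K := LC.R.prod K) (L := V) (h.trans φ).symm).sumMap
        (PMap.ofHomeo (K := LC.R.prod K) (L := V) (h.trans φ).symm)).plus
          (pinchRK K (φ (h v)))) =
    (f.copair g).plus (((PMap.ofHomeo (K := LC.R.prod K) (L := W) φ.symm).sumMap
        (PMap.ofHomeo (K := LC.R.prod K) (L := W) φ.symm)).plus (pinchRK K (φ (h v))))
  rcases pinchRK K (φ (h v)) with _ | (b | b)
  · rfl
  · change f (h (h.symm (φ.symm b))) = f (φ.symm b)
    rw [h.apply_symm_apply]
  · change g (h (h.symm (φ.symm b))) = g (φ.symm b)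
    rw [h.apply_symm_apply]

theorem fC_add (α β : GenLoop (Fin (3 + 1)) X x0) :
    (fC a ha (GenLoop.transAt 0 α β)).Homotopic
      (((fC a ha α).copair (fC a ha β)).comp (pinchAt33 (hC.trans (splitW33 3 LC.point)))) := by
  have h1 := PMap.Homotopic.comp_left (fW_add a ha α β) (PMap.ofHomeo hC)
  have h2 := pinchAt_trans hC (splitW33 3 LC.point) (fW a ha α) (fW a ha β)
  rw [PMap.comp_assoc] at h1
  unfold fC
  rw [h2]
  rw [PMap.comp_assoc]
  exact h1

/-- the pointed map of a loop on the sphere -/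
theorem hat_fC (α : GenLoop (Fin (2 * 2)) X x0) :
    (hat (fC a ha α)).Homotopic (a.comp (loopBar (e := 2) α)) := by
  let Φ : unitInterval × (Fin (2 * 2) → unitInterval) → X := fun y => α (stI y.1 y.2)
  have hΦ : Continuous Φ := α.1.continuous.comp stI_cont
  have hb : ∀ l u, u ∈ Cube.boundary (Fin (2 * 2)) → Φ (l, u) = x0 := fun l u hu =>
    α.2 _ (stI_bd l hu)
  let G := famBar (e := 2) Φ hΦ hb
  refine ContinuousMap.Homotopic.symm ⟨⟨⟨fun y => a (G (y.1, y.2)), a.continuous.comp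
    (G.continuous.comp (continuous_fst.prodMk continuous_snd))⟩, fun p => ?_, fun p => ?_⟩⟩
  · change a (G ((0 : unitInterval), p)) = a (loopBar (e := 2) α p)
    congr 1
    rcases p with _ | z
    · rfl
    · change α (stI 0 (cub 2 z)) = α (cub 2 z)
      rw [stI_zero]
  · change a (G ((1 : unitInterval), p)) = (fC a ha α).plus p
    rcases p with _ | z
    · exact ha
    · change a (α (stI 1 (cub 2 z))) = a (α (strR (realify 2 z)))
      rw [stI_one]
      rfl

/-- the class of a loop -/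
def IsHc (R : GBiv) (α : GenLoop (Fin (2 * 2)) X x0) (x : R.Hom (LC.cpow (Fin 2)) LC.point) :
    Prop :=
  R.comp (R.J (collSph 2)) x = cl R (K := LC.sph 2) (a.comp (loopBar (e := 2) α)) -
    R.J (PMap.toPoint (LC.sph 2))

theorem isHc_iff (R : GBiv) (α : GenLoop (Fin (2 * 2)) X x0)
    (x : R.Hom (LC.cpow (Fin 2)) LC.point) : IsHc a R α x ↔ IsTh R (fC a ha α) x := by
  have h := cl_homotopic R (K := LC.sph 2) (hat_fC a ha α)
  unfold IsHc IsTh
  rw [← h]
  rfl

include ha in
/-- classes of powers -/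
theorem hur_zpow (R : GBiv) (α β : GenLoop (Fin (3 + 1)) X x0) (m : ℤ)
    (h : hclass β = hclass α ^ m) {x y : R.Hom (LC.cpow (Fin 2)) LC.point}
    (hx : IsHc a R α x) (hy : IsHc a R β y) : y = m • x := by
  choose T hT using fun α : GenLoop (Fin (3 + 1)) X x0 => exists_isTh R (fC a ha α)
  let Θ : HomotopyGroup (Fin (3 + 1)) X x0 → R.Hom (LC.cpow (Fin 2)) LC.point :=
    Quotient.lift T (fun α β h => ((hT α).homotopic (fC_homotopic a ha h)).unique (hT β))
  have hmul : ∀ x y, Θ (x * y) = Θ x + Θ y := by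
    intro x y
    obtain ⟨α⟩ := x
    obtain ⟨β⟩ := y
    have h1 : Θ (hgm α * hgm β) = Θ (hgm (GenLoop.transAt 0 β α)) := by rw [hgm_mul 0]
    have h2 : T (GenLoop.transAt 0 β α) = T β + T α :=
      IsTh.add (pinchAt33 (hC.trans (splitW33 3 LC.point))) (pinchAt_unit_left33 _)
        (pinchAt_unit_right33 _) (fC_add a ha β α) (hT β) (hT α) (hT _)
    exact h1.trans (h2.trans (add_comm _ _))
  let Φ : HomotopyGroup (Fin (3 + 1)) X x0 →* Multiplicative (R.Hom (LC.cpow (Fin 2)) LC.point) :=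
    MonoidHom.mk' (fun x => Multiplicative.ofAdd (Θ x)) hmul
  have h3 := map_zpow Φ (hclass α) m
  rw [← h] at h3
  have h4 : T β = m • T α := h3
  rw [((isHc_iff a ha R α x).1 hx).unique (hT α), ((isHc_iff a ha R β y).1 hy).unique (hT β), h4]

end

theorem toU_pt : BG.toU (BG.pt {1}) = BG.pt Set.univ := rfl

theorem isHc_of (R : GBiv) {k : ℕ} (f : GenLoop (Fin 4) (Gr {1} k) (Gr.pt {1} k))
    (x : R.Hom (LC.cpow (Fin 2)) LC.point)
    (hx : R.comp (R.J (collSph 2)) x =
      R.comp (R.J (PMap.ofC (K := LC.sph 2) (L := LC.G (Fin k))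
        (loopBar (e := 2) (loopGK (loopToU f))))) (R.g (Fin k)) -
      R.J (PMap.toPoint (LC.sph 2))) : IsHc BG.toU R (toBGLoop f) x := by
  unfold IsHc
  have h1 : BG.toU.comp (loopBar (e := 2) (toBGLoop f)) =
      (toBG Set.univ k).comp (loopBar (e := 2) (loopToU f)) := by
    apply ContinuousMap.ext
    intro p
    rcases p with _ | z
    · exact (toBG_pt Set.univ k).symm
    · change BG.toU (toBG {1} k (f (cub 2 z))) = toBG Set.univ k (Gr.toU (f (cub 2 z)))
      induction f (cub 2 z) using Quot.ind with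
      | mk A => rfl
  have h2 : (⟨fun x => Gr.toGK (loopBar (e := 2) (loopToU f) x),
      Gr.toGK_continuous.comp (loopBar (e := 2) (loopToU f)).continuous⟩ : C(LC.sph 2, LC.G (Fin k))) =
      loopBar (e := 2) (loopGK (loopToU f)) := by
    apply ContinuousMap.ext
    intro p
    rcases p with _ | z
    · exact Gr.toGK_pt
    · rfl
  rw [hx, h1, cl_toGK, h2]

theorem hur_pow' (R : GBiv) {k k' : ℕ} (f : GenLoop (Fin 4) (Gr {1} k) (Gr.pt {1} k))
    (f' : GenLoop (Fin 4) (Gr {1} k') (Gr.pt {1} k')) (m : ℤ)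
    (h : hclass (toBGLoop f') = hclass (toBGLoop f) ^ m)
    (x x' : R.Hom (LC.cpow (Fin 2)) LC.point)
    (hx : R.comp (R.J (collSph 2)) x =
      R.comp (R.J (PMap.ofC (K := LC.sph 2) (L := LC.G (Fin k))
        (loopBar (e := 2) (loopGK (loopToU f))))) (R.g (Fin k)) -
      R.J (PMap.toPoint (LC.sph 2)))
    (hx' : R.comp (R.J (collSph 2)) x' =
      R.comp (R.J (PMap.ofC (K := LC.sph 2) (L := LC.G (Fin k'))
        (loopBar (e := 2) (loopGK (loopToU f'))))) (R.g (Fin k')) -
      R.J (PMap.toPoint (LC.sph 2))) : x' = m • x :=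
  hur_zpow BG.toU toU_pt R (toBGLoop f) (toBGLoop f') m h (isHc_of R f x hx) (isHc_of R f' x' hx')

end HurP

end Pool.Agent.Helper1.Stab
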