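import Pool.Agent.Helper73.Stab.ThomAux

/-! Unitary equivalence of families of projections. -/

open Topology Filter Set Matrix

noncomputable section

namespace Pool.Agent.Helper1.Stab

namespace UEq

theorem refl {X S : Type} [TopologicalSpace X] [Fintype S] {n : ℕ} {P : X → Pr S n}
    (hP : Continuous P) : UEquiv P P :=
  ⟨fun x => (P x).1, continuous_subtype_val.comp hP,
    fun x => by rw [(P x).2.1, (P x).2.2.1], fun x => by rw [(P x).2.1, (P x).2.2.1]⟩

theorem symm {X S T : Type} [TopologicalSpace X] [Fintype S] [Fintype T] {n m : ℕ}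
    {P : X → Pr S n} {Q : X → Pr T m} (h : UEquiv P Q) : UEquiv Q P := by
  obtain ⟨w, hw, h1, h2⟩ := h
  refine ⟨fun x => (w x)ᴴ, hw.matrix_conjTranspose, fun x => ?_, fun x => ?_⟩
  · rw [conjTranspose_conjTranspose, h2]
  · rw [conjTranspose_conjTranspose, h1]

theorem trans {X S T U : Type} [TopologicalSpace X] [Fintype S] [Fintype T] [Fintype U]
    {n m k : ℕ} {P : X → Pr S n} {Q : X → Pr T m} {V : X → Pr U k} (h : UEquiv P Q)
    (h' : UEquiv Q V) : UEquiv P V := by
  obtain ⟨w, hw, h1, h2⟩ := h
  obtain ⟨v, hv, h3, h4⟩ := h'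
  refine ⟨fun x => v x * w x, hv.matrix_mul hw, fun x => ?_, fun x => ?_⟩
  · rw [conjTranspose_mul, Matrix.mul_assoc, ← Matrix.mul_assoc (v x)ᴴ, h3, ← h2,
      Matrix.mul_assoc (w x), h1, ← Matrix.mul_assoc, h1, (P x).2.2.1]
  · rw [conjTranspose_mul, Matrix.mul_assoc, ← Matrix.mul_assoc (w x), h2, ← h3,
      Matrix.mul_assoc (v x)ᴴ, h4, ← Matrix.mul_assoc, h4, (V x).2.2.1]

theorem sum {X S T S' T' : Type} [TopologicalSpace X] [Fintype S] [Fintype T] [Fintype S']
    [Fintype T'] {n m n' m' : ℕ} {P : X → Pr S n} {Q : X → Pr T m} {P' : X → Pr S' n'}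
    {Q' : X → Pr T' m'} (h : UEquiv P P') (h' : UEquiv Q Q') :
    UEquiv (fun x => Pr.sum (P x, Q x)) (fun x => Pr.sum (P' x, Q' x)) := by
  obtain ⟨w, hw, h1, h2⟩ := h
  obtain ⟨v, hv, h3, h4⟩ := h'
  refine ⟨fun x => fromBlocks (w x) 0 0 (v x),
    Continuous.matrix_fromBlocks hw continuous_const continuous_const hv, fun x => ?_, fun x => ?_⟩
  · rw [fromBlocks_conjTranspose, fromBlocks_multiply, h1, h3]
    simp only [conjTranspose_zero, Matrix.mul_zero, Matrix.zero_mul, add_zero, zero_add]
    rfl
  · rw [fromBlocks_conjTranspose, fromBlocks_multiply, h2, h4]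
    simp only [conjTranspose_zero, Matrix.mul_zero, Matrix.zero_mul, add_zero, zero_add]
    rfl

theorem comp {X Y S T : Type} [TopologicalSpace X] [TopologicalSpace Y] [Fintype S] [Fintype T]
    {n m : ℕ} {P : X → Pr S n} {Q : X → Pr T m} (h : UEquiv P Q) {f : Y → X} (hf : Continuous f) :
    UEquiv (fun y => P (f y)) (fun y => Q (f y)) := by
  obtain ⟨w, hw, h1, h2⟩ := h
  exact ⟨fun y => w (f y), hw.comp hf, fun y => h1 _, fun y => h2 _⟩

/-- the matrix of an injection -/
def emb {S T : Type} [DecidableEq T] (j : S ↪ T) : Matrix T S ℂ := fun t s => if j s = t then 1 else 0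

theorem emb_mul {S T : Type} [Fintype S] [Fintype T] [DecidableEq T] [DecidableEq S] (j : S ↪ T) :
    (emb j)ᴴ * emb j = 1 := by
  ext s s'
  rw [Matrix.mul_apply]
  simp only [conjTranspose_apply, emb]
  rw [Finset.sum_eq_single (j s)]
  · rw [if_pos rfl, star_one, one_mul, Matrix.one_apply]
    by_cases h : s = s'
    · rw [h, if_pos rfl, if_pos rfl]
    · rw [if_neg h, if_neg (fun e => h (j.injective e).symm)]
  · intro t _ ht
    rw [if_neg (Ne.symm ht), star_zero, zero_mul]
  · intro h
    exact absurd (Finset.mem_univ _) h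

theorem emb_conj {S T : Type} [Fintype S] [Fintype T] [DecidableEq T] (j : S ↪ T)
    {n : ℕ} (P : Pr S n) : emb j * P.1 * (emb j)ᴴ = (Pr.ext j P).1 := by
  ext x y
  have h1 : (emb j * P.1 * (emb j)ᴴ) x y =
      ∑ b, (∑ a, (if j a = x then 1 else 0) * P.1 a b) * star (if j b = y then (1 : ℂ) else 0) := by
    rw [Matrix.mul_apply]
    refine Finset.sum_congr rfl fun b _ => ?_
    rw [Matrix.mul_apply, conjTranspose_apply]
    rfl
  rw [h1]
  by_cases hy : ∃ t, j t = y
  · obtain ⟨t, rfl⟩ := hy
    rw [Finset.sum_eq_single t]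
    · rw [if_pos rfl, star_one, mul_one]
      by_cases hx : ∃ s, j s = x
      · obtain ⟨s, rfl⟩ := hx
        rw [Finset.sum_eq_single s, if_pos rfl, one_mul, ThL.ext_apply]
        · intro b _ hb
          rw [if_neg (fun e => hb (j.injective e)), zero_mul]
        · intro h
          exact absurd (Finset.mem_univ _) h
      · rw [ThL.ext_zero j P (fun h => hx h.1)]
        refine Finset.sum_eq_zero fun a _ => ?_
        rw [if_neg (fun e => hx ⟨a, e⟩), zero_mul]
    · intro b _ hb
      rw [if_neg (fun e => hb (j.injective e)), star_zero, mul_zero]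
    · intro h
      exact absurd (Finset.mem_univ _) h
  · rw [ThL.ext_zero j P (fun h => hy h.2)]
    refine Finset.sum_eq_zero fun b _ => ?_
    rw [if_neg (fun e => hy ⟨b, e⟩), star_zero, mul_zero]

/-- extension by zero does not change the equivalence class -/
theorem ext {X S T : Type} [TopologicalSpace X] [Fintype S] [Fintype T] (j : S ↪ T) {n : ℕ}
    {P : X → Pr S n} (hP : Continuous P) : UEquiv P (fun x => Pr.ext j (P x)) := by
  classical
  refine ⟨fun x => emb j * (P x).1, continuous_const.matrix_mul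
    (continuous_subtype_val.comp hP), fun x => ?_, fun x => ?_⟩
  · rw [conjTranspose_mul, Matrix.mul_assoc, ← Matrix.mul_assoc (emb j)ᴴ, emb_mul, Matrix.one_mul,
      (P x).2.1, (P x).2.2.1]
  · rw [← emb_conj, conjTranspose_mul, ← Matrix.mul_assoc, Matrix.mul_assoc (emb j), (P x).2.1,
      (P x).2.2.1]

/-- associativity of block sums -/
theorem assoc {X S T U : Type} [TopologicalSpace X] [Fintype S] [Fintype T] [Fintype U]
    {n m k : ℕ} {P : X → Pr S n} {Q : X → Pr T m} {V : X → Pr U k} (hP : Continuous P)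
    (hQ : Continuous Q) (hV : Continuous V) :
    UEquiv (fun x => Pr.sum (Pr.sum (P x, Q x), V x)) (fun x => Pr.sum (P x, Pr.sum (Q x, V x))) := by
  classical
  let e := Equiv.sumAssoc S T U
  have h := ext (n := n + m + k) e.toEmbedding (P := fun x => Pr.sum (Pr.sum (P x, Q x), V x))
    (Pr.continuous_sum.comp ((Pr.continuous_sum.comp (hP.prodMk hQ)).prodMk hV))
  obtain ⟨w, hw, h1, h2⟩ := h
  refine ⟨w, hw, h1, fun x => ?_⟩
  rw [h2]
  ext a b
  obtain ⟨a, rfl⟩ := e.surjective a
  obtain ⟨b, rfl⟩ := e.surjective b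
  change (Pr.ext e.toEmbedding (Pr.sum (Pr.sum (P x, Q x), V x))).1 (e.toEmbedding a)
    (e.toEmbedding b) = _
  rw [ThL.ext_apply]
  rcases a with (a | a) | a <;> rcases b with (b | b) | b <;> rfl

/-- the identity projection -/
def full (m : ℕ) : Pr (Fin m) m :=
  ⟨1, by rw [conjTranspose_one], by rw [Matrix.one_mul], by rw [Matrix.trace_one, Fintype.card_fin]⟩

/-- every projection is equivalent to the identity of its image -/
theorem exists_iso {T : Type} [Fintype T] {m : ℕ} (Q : Pr T m) :
    ∃ w : Matrix (Fin m) T ℂ, wᴴ * w = Q.1 ∧ w * wᴴ = 1 := by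
  classical
  obtain ⟨Q, h1, h2, h3⟩ := Q
  have hA : Q.IsHermitian := h1
  have hU := hA.spectral_theorem
  set U : Matrix T T ℂ := (hA.eigenvectorUnitary : Matrix T T ℂ) with hUdef
  have hUU : star U * U = 1 := by
    have := (Matrix.mem_unitaryGroup_iff' (A := U)).1 hA.eigenvectorUnitary.2
    exact this
  have hQ : Q = U * diagonal (fun i => (hA.eigenvalues i : ℂ)) * star U := by
    conv_lhs => rw [hU]
    rw [Unitary.conjStarAlgAut_apply]
    rfl
  have hev : ∀ i, hA.eigenvalues i = 0 ∨ hA.eigenvalues i = 1 := by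
    intro i
    have h4 : diagonal (fun i => (hA.eigenvalues i : ℂ)) * diagonal (fun i => (hA.eigenvalues i : ℂ)) =
        diagonal (fun i => (hA.eigenvalues i : ℂ)) := by
      have h5 : star U * Q * U = diagonal (fun i => (hA.eigenvalues i : ℂ)) := by
        conv_lhs => rw [hQ]
        rw [← Matrix.mul_assoc, ← Matrix.mul_assoc, hUU, Matrix.one_mul, Matrix.mul_assoc, hUU,
          Matrix.mul_one]
      have hUU' : U * star U = 1 := mul_eq_one_comm.1 hUU
      rw [← h5, Matrix.mul_assoc (star U) Q U, Matrix.mul_assoc (star U) (Q * U),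
        ← Matrix.mul_assoc (Q * U) (star U), Matrix.mul_assoc Q U (star U), hUU', Matrix.mul_one,
        ← Matrix.mul_assoc Q, h2]
    have h6 := congrFun (congrFun h4 i) i
    rw [diagonal_mul_diagonal, diagonal_apply_eq, diagonal_apply_eq] at h6
    have h7 : hA.eigenvalues i * hA.eigenvalues i = hA.eigenvalues i := by exact_mod_cast h6
    have h8 : hA.eigenvalues i * (hA.eigenvalues i - 1) = 0 := by linarith
    rcases mul_eq_zero.1 h8 with h | h
    · exact Or.inl h
    · exact Or.inr (by linarith)
  have hcard : Fintype.card {i // hA.eigenvalues i = 1} = m := by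
    have h4 := hA.trace_eq_sum_eigenvalues
    rw [h3] at h4
    have h5 : (∑ i, ((hA.eigenvalues i : ℝ) : ℂ)) =
        ((Finset.univ.filter (fun i => hA.eigenvalues i = 1)).card : ℂ) := by
      rw [Finset.card_filter]
      push_cast
      refine Finset.sum_congr rfl fun i _ => ?_
      rcases hev i with h | h
      · rw [h, if_neg (by norm_num)]
        simp
      · rw [h, if_pos rfl]
        simp
    rw [Fintype.card_subtype]
    have h6 : ((m : ℕ) : ℂ) = ((Finset.univ.filter (fun i => hA.eigenvalues i = 1)).card : ℂ) :=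
      h4.trans h5
    exact_mod_cast h6.symm
  let e : Fin m ≃ {i // hA.eigenvalues i = 1} := (Fintype.equivFinOfCardEq hcard).symm
  refine ⟨fun k t => star (U t (e k).1), ?_, ?_⟩
  · ext t t'
    rw [Matrix.mul_apply]
    simp only [conjTranspose_apply, star_star]
    conv_rhs => rw [hQ]
    rw [Matrix.mul_apply]
    have h4 : ∀ i, (U * diagonal (fun i => (hA.eigenvalues i : ℂ))) t i * (star U) i t' =
        if hA.eigenvalues i = 1 then U t i * star (U t' i) else 0 := by
      intro i
      rw [Matrix.mul_diagonal, Matrix.star_apply]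
      rcases hev i with h | h
      · rw [h, if_neg (by norm_num)]
        simp
      · rw [h, if_pos rfl]
        simp
    rw [Finset.sum_congr rfl fun i _ => h4 i, ← Finset.sum_filter]
    rw [← Equiv.sum_comp e.symm]
    simp only [Equiv.apply_symm_apply]
    rw [← Finset.sum_subtype (Finset.univ.filter fun i => hA.eigenvalues i = 1)
      (fun i => by simp) (fun i => U t i * star (U t' i))]
  · ext k l
    rw [Matrix.mul_apply]
    simp only [conjTranspose_apply, star_star]
    have h4 := congrFun (congrFun hUU (e k).1) (e l).1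
    rw [Matrix.mul_apply] at h4
    simp only [Matrix.star_apply] at h4
    rw [h4, Matrix.one_apply, Matrix.one_apply]
    by_cases h : k = l
    · rw [h, if_pos rfl, if_pos rfl]
    · rw [if_neg h, if_neg (fun h' => h (e.injective (Subtype.ext h')))]

/-- constant families are equivalent -/
theorem const {X S T : Type} [TopologicalSpace X] [Fintype S] [Fintype T] {m : ℕ} (P : Pr S m)
    (Q : Pr T m) : UEquiv (fun _ : X => P) (fun _ => Q) := by
  have key : ∀ {S' : Type} [Fintype S'] (P' : Pr S' m),
      UEquiv (fun _ : X => P') (fun _ => full m) := by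
    intro S' _ P'
    obtain ⟨w, h1, h2⟩ := exists_iso P'
    exact ⟨fun _ => w, continuous_const, fun _ => h1, fun _ => h2⟩
  exact trans (key P) (symm (key Q))

end UEq

end Pool.Agent.Helper1.Stab
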