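import Pool.Agent.Helper1.Stab.Proj

/-! Lines of unit vectors and rank one projections: auxiliary facts for the Thom isomorphism. -/

open Topology Filter Set Matrix

noncomputable section

namespace Pool.Agent.Helper1.Stab

namespace ThL

/-! ### Extension by zero -/

theorem ext_apply {S T : Type} [Fintype S] [Fintype T] (j : S ↪ T) {n : ℕ} (P : Pr S n)
    (s t : S) : (Pr.ext j P).1 (j s) (j t) = P.1 s t := by
  unfold Pr.ext
  simp only
  rw [dif_pos ⟨⟨s, rfl⟩, ⟨t, rfl⟩⟩]
  have h1 : ∀ (h : ∃ r, j r = j s), h.choose = s := fun h => j.injective h.choose_spec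
  have h2 : ∀ (h : ∃ r, j r = j t), h.choose = t := fun h => j.injective h.choose_spec
  rw [h1, h2]

theorem ext_zero {S T : Type} [Fintype S] [Fintype T] (j : S ↪ T) {n : ℕ} (P : Pr S n)
    {x y : T} (h : ¬ ((∃ s, j s = x) ∧ ∃ s, j s = y)) : (Pr.ext j P).1 x y = 0 := by
  unfold Pr.ext
  simp only
  rw [dif_neg h]

theorem line_apply {S : Type} [Fintype S] [DecidableEq S] (s x y : S) :
    (Pr.line s).1 x y = if x = s ∧ y = s then 1 else 0 := by
  unfold Pr.line
  simp only
  congr

theorem ext_line {S T : Type} [Fintype S] [Fintype T] (j : S ↪ T) (s : S) :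
    Pr.ext j (Pr.line s) = Pr.line (j s) := by
  classical
  apply Subtype.ext
  ext x y
  by_cases h : (∃ r, j r = x) ∧ ∃ r, j r = y
  · obtain ⟨⟨a, rfl⟩, ⟨b, rfl⟩⟩ := h
    rw [ext_apply, line_apply, line_apply]
    simp [j.injective.eq_iff]
  · rw [ext_zero j _ h, line_apply, if_neg]
    rintro ⟨rfl, rfl⟩
    exact h ⟨⟨s, rfl⟩, ⟨s, rfl⟩⟩

/-! ### Lines of unit vectors -/

theorem unit_sum {S : Type} [Fintype S] {e : S → ℂ} (he : ∑ s, ‖e s‖ ^ 2 = 1) :
    ∑ s, star (e s) * e s = 1 := by
  have h : ∀ s, star (e s) * e s = ((‖e s‖ ^ 2 : ℝ) : ℂ) := fun s => by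
    rw [Complex.star_def, mul_comm, Complex.mul_conj, Complex.normSq_eq_norm_sq]
  rw [Finset.sum_congr rfl fun s _ => h s, ← Complex.ofReal_sum, he]
  rfl

/-- the line of a unit vector -/
def lineOf {S : Type} [Fintype S] (e : S → ℂ) (he : ∑ s, ‖e s‖ ^ 2 = 1) : Pr S 1 :=
  ⟨fun i j => e i * star (e j), by
    refine ⟨?_, ?_, ?_⟩
    · ext i j
      simp [Matrix.conjTranspose_apply, mul_comm]
    · ext i j
      rw [Matrix.mul_apply]
      have h : ∀ x, e i * star (e x) * (e x * star (e j)) =
          (star (e x) * e x) * (e i * star (e j)) := fun x => by ring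
      rw [Finset.sum_congr rfl fun x _ => h x, ← Finset.sum_mul, unit_sum he, one_mul]
    · rw [Matrix.trace]
      have h : ∀ x, Matrix.diag (fun i j => e i * star (e j)) x = star (e x) * e x :=
        fun x => mul_comm _ _
      rw [Finset.sum_congr rfl fun x _ => h x, unit_sum he]
      simp⟩

theorem norm_sum {S : Type} [Fintype S] {e : S → ℂ} (he : ∑ s, ‖e s‖ ^ 2 = 1) (z : ℂ) :
    ∑ s, ‖z * e s‖ ^ 2 = ‖z‖ ^ 2 := by
  simp only [norm_mul, mul_pow]
  rw [← Finset.mul_sum, he, mul_one]

/-- negative conjugation -/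
def negconj : LC.C ≃ₜ LC.C := Complex.conjCLE.toHomeomorph.trans (Homeomorph.neg ℂ)

/-! ### Rank one projections -/

open scoped ComplexOrder in
theorem rank_one {S : Type} [Fintype S] (P : Pr S 1) (i j s : S) :
    P.1 i s * P.1 s j = P.1 s s * P.1 i j := by
  obtain ⟨P, h1, h2, h3⟩ := P
  simp only
  have hconj : ∀ a b, star (P a b) = P b a := fun a b => by
    have := congrFun (congrFun h1 b) a
    rwa [Matrix.conjTranspose_apply] at this
  have hmul : ∀ a b, ∑ c, P a c * P c b = P a b := fun a b => by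
    rw [← Matrix.mul_apply, h2]
  have hss : P s s = ((∑ c, ‖P c s‖ ^ 2 : ℝ) : ℂ) := by
    rw [← hmul s s, Complex.ofReal_sum]
    refine Finset.sum_congr rfl fun c _ => ?_
    rw [← hconj c s, Complex.star_def, mul_comm, Complex.mul_conj, Complex.normSq_eq_norm_sq]
  by_cases h0 : P s s = 0
  · have h4 : ∀ c, P c s = 0 := by
      rw [h0] at hss
      have h5 : ∑ c, ‖P c s‖ ^ 2 = 0 := by exact_mod_cast hss.symm
      rw [Finset.sum_eq_zero_iff_of_nonneg (fun c _ => by positivity)] at h5
      intro c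
      have := h5 c (Finset.mem_univ c)
      simpa using this
    rw [h4, h0]
    ring
  · -- `M = P - P e_s e_s^* P / P_ss` is a projection of trace zero
    let M : Matrix S S ℂ := fun a b => P a b - (P s s)⁻¹ * (P a s * P s b)
    have hM1 : Mᴴ = M := by
      ext a b
      rw [Matrix.conjTranspose_apply]
      simp only [M, star_sub, star_mul', hconj, star_inv₀]
      ring
    have hM2 : M * M = M := by
      ext a b
      rw [Matrix.mul_apply]
      have h5 : ∀ c, M a c * M c b = P a c * P c b - (P s s)⁻¹ * P s b * (P a c * P c s) -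
          (P s s)⁻¹ * P a s * (P s c * P c b) +
          (P s s)⁻¹ * (P s s)⁻¹ * P a s * P s b * (P s c * P c s) := fun c => by
        simp only [M]
        ring
      rw [Finset.sum_congr rfl fun c _ => h5 c, Finset.sum_add_distrib, Finset.sum_sub_distrib,
        Finset.sum_sub_distrib, ← Finset.mul_sum, ← Finset.mul_sum, ← Finset.mul_sum, hmul, hmul,
        hmul, hmul]
      simp only [M]
      field_simp
      ring
    have hM3 : M.trace = 0 := by
      have h5 : M.trace = P.trace - (P s s)⁻¹ * ∑ c, P s c * P c s := by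
        simp only [Matrix.trace, Matrix.diag, M, Finset.sum_sub_distrib, Finset.mul_sum]
        congr 1
        exact Finset.sum_congr rfl fun c _ => by ring
      rw [h5, h3, hmul, inv_mul_cancel₀ h0]
      simp
    have hM4 : M = 0 := by
      rw [← Matrix.trace_conjTranspose_mul_self_eq_zero_iff, hM1, hM2, hM3]
    have h6 := congrFun (congrFun hM4 i) j
    simp only [M, Matrix.zero_apply] at h6
    rw [sub_eq_zero] at h6
    rw [h6]
    field_simp

theorem diag_real {S : Type} [Fintype S] (P : Pr S 1) (s : S) :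
    P.1 s s = ((P.1 s s).re : ℂ) := by
  have h := congrFun (congrFun P.2.1 s) s
  rw [Matrix.conjTranspose_apply] at h
  exact (Complex.conj_eq_iff_real.1 h).elim fun r hr => by rw [hr, Complex.ofReal_re]

end ThL

end Pool.Agent.Helper1.Stab
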