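import Pool.Agent.Helper1.Stab.BSU
import Pool.Agent.Helper1.Stab.Comp2

/-! The class of a map of a compact space to `BU`. -/

open CategoryTheory Topology Filter Set Opposite

noncomputable section

namespace Pool.Agent.Helper1.Stab

namespace HurP

open Pool.Agent.Helper39.Stab

/-- a compact set of `BG D` lies in a stage -/
theorem exists_stageC {D : Set ℂ} (hD : GoodD D) {C : Set (BG D)} (hC : IsCompact C) :
    ∃ l : ℕ, C ⊆ stage D l := by
  have h0 : Continuous fun x : BG D => (Sph.mk (fun i : Fin 0 => i.elim0) x : Sph 0 (BG D)) :=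
    mk_continuous_pair continuous_const continuous_id
  obtain ⟨l, hl⟩ := Pool.Agent.Helper93.Stab.exists_stage hD.dg (v := 0) (hC.image h0)
  refine ⟨l, fun x hx => ?_⟩
  have hne : (Sph.mk (fun i : Fin 0 => i.elim0) x : Sph 0 (BG D)) ≠ (Sph 0 (BG D)).pt := by
    intro h
    have h1 := Pool.Agent.Helper93.Stab.cls_eq (r := 0) (X := BG D)
      (a := Sum.inr (fun i : Fin 0 => i.elim0, x)) (b := Sum.inl ()) h
    unfold Pool.Agent.Helper93.Stab.cls at h1
    simp only at h1
    rw [if_neg] at h1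
    · exact absurd h1 (by simp)
    · rintro ⟨i, -⟩
      exact i.elim0
  rcases hl _ ⟨x, hx, rfl⟩ with h | ⟨u, y, hy, h⟩
  · exact absurd h hne
  · obtain ⟨-, rfl⟩ := Pool.Agent.Helper93.Stab.mk_inj h hne
    exact hy

/-- a map of a compact space to `BU` factors over a stage -/
theorem exists_stageM {K : LC} [CompactSpace K] (φ : C(K, BG Set.univ)) :
    ∃ (l : ℕ) (ψ : C(K, stageLC goodU l)), ∀ k, (ψ k).1 = φ k := by
  obtain ⟨l, hl⟩ := exists_stageC goodU (isCompact_range φ.continuous)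
  exact ⟨l, ⟨fun k => ⟨φ k, hl ⟨k, rfl⟩⟩, φ.continuous.subtype_mk _⟩, fun k => rfl⟩

instance compactStage (l : ℕ) : CompactSpace (stageLC goodU l) :=
  isCompact_iff_compactSpace.1 (isCompact_stage Set.univ l)

/-- the inclusion of a stage in the next one -/
def sStep (l : ℕ) : C(stageLC goodU l, stageLC goodU (l + 1)) :=
  ⟨fun y => ⟨y.1, stage_succ _ _ y.2⟩, continuous_subtype_val.subtype_mk _⟩

theorem J_ofC_comp (R : Biv) {K L M : LC} [CompactSpace K] [CompactSpace L] (f : C(K, L))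
    (g : C(L, M)) : R.comp (R.J (PMap.ofC f)) (R.J (PMap.ofC g)) = R.J (PMap.ofC (g.comp f)) := by
  rw [← R.J_comp]
  rfl

theorem sStep_gst (R : GBiv) (l : ℕ) :
    R.comp (R.J (PMap.ofC (K := stageLC goodU l) (L := stageLC goodU (l + 1)) (sStep l)))
      (gst R (l + 1)) = gst R l := by
  unfold gst
  have h1 : (PMap.ofHomeo (K := stageLC goodU (l + 1)) (L := LC.G (Fin (l + 1)))
      (stageGK (l + 1))).comp (PMap.ofC (K := stageLC goodU l) (L := stageLC goodU (l + 1))
        (sStep l)) =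
      (PMap.ofHomeo (K := LC.G (Fin l ⊕ Fin 1)) (L := LC.G (Fin (l + 1)))
        (GK.reindex finSumFinEquiv)).comp ((iotaG l).comp
          (PMap.ofHomeo (K := stageLC goodU l) (L := LC.G (Fin l)) (stageGK l))) := by
    ext y
    obtain ⟨y, x, rfl⟩ := y
    induction x using Quot.ind with
    | mk A =>
      change ((stageGK (l + 1) ⟨toBG Set.univ l (Quot.mk _ A), _⟩ : LC.G (Fin (l + 1))) :
          OnePoint (LC.G (Fin (l + 1)))) =
        ((GK.reindex finSumFinEquiv (GK.sum (stageGK l ⟨toBG Set.univ l (Quot.mk _ A), _⟩,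
          GK.base (Fin 1))) : LC.G (Fin (l + 1))) : OnePoint (LC.G (Fin (l + 1))))
      have h2 := (exists_stageGK l).choose_spec A
      have h3 := (exists_stageGK (l + 1)).choose_spec A.incl
      have h4 : toBG Set.univ (l + 1) (Quot.mk _ A.incl) = toBG Set.univ l (Quot.mk _ A) :=
        (Quot.sound (.stab A)).symm
      have h5 : ∀ (p : BG Set.univ) (hp : p ∈ stage Set.univ (l + 1)),
          p = toBG Set.univ (l + 1) (Quot.mk _ A.incl) → stageGK (l + 1) ⟨p, hp⟩ = A.incl.proj := by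
        intro p hp h
        subst h
        exact h3
      rw [h5 _ _ h4.symm, Frame.proj_incl]
      have h6 : stageGK l ⟨toBG Set.univ l (Quot.mk _ A), ⟨_, rfl⟩⟩ = A.proj := h2
      rw [h6]
  have h7 : R.comp (R.J (PMap.ofHomeo (K := LC.G (Fin l ⊕ Fin 1)) (L := LC.G (Fin (l + 1)))
      (GK.reindex finSumFinEquiv))) (R.g (Fin (l + 1))) = R.g (Fin l ⊕ Fin 1) :=
    R.g_reindex finSumFinEquiv
  rw [← R.assoc, ← R.J_comp, h1, R.J_comp, R.J_comp, R.assoc, R.assoc, h7, ← iotaG_class R l]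

theorem stage_compare_aux (R : GBiv) {K : LC} [CompactSpace K] {l : ℕ} (d : ℕ) :
    ∀ (ψ : C(K, stageLC goodU l)) (ψ' : C(K, stageLC goodU (l + d))) (_ : ∀ k, (ψ k).1 = (ψ' k).1),
      R.comp (R.J (PMap.ofC ψ)) (gst R l) = R.comp (R.J (PMap.ofC ψ')) (gst R (l + d)) := by
  induction d with
  | zero =>
    intro ψ ψ' h
    have h1 : ψ = ψ' := ContinuousMap.ext fun k => Subtype.ext (h k)
    rw [h1]
    rfl
  | succ d ih =>
    intro ψ ψ' h
    let χ : C(K, stageLC goodU (l + d)) :=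
      ⟨fun k => ⟨(ψ k).1, stage_mono Set.univ (Nat.le_add_right l d) (ψ k).2⟩,
        (continuous_subtype_val.comp ψ.continuous).subtype_mk _⟩
    have h1 : ψ' = (sStep (l + d)).comp χ := ContinuousMap.ext fun k => Subtype.ext (h k).symm
    rw [ih ψ χ fun k => rfl, h1]
    have h2 := J_ofC_comp R.toBiv χ (sStep (l + d))
    rw [← h2, R.assoc]
    have h3 := sStep_gst R (l + d)
    exact congrArg _ h3.symm

theorem stage_compare (R : GBiv) {K : LC} [CompactSpace K] {l l' : ℕ} (ψ : C(K, stageLC goodU l))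
    (ψ' : C(K, stageLC goodU l')) (h : ∀ k, (ψ k).1 = (ψ' k).1) :
    R.comp (R.J (PMap.ofC ψ)) (gst R l) = R.comp (R.J (PMap.ofC ψ')) (gst R l') := by
  rcases le_total l l' with hl | hl
  · obtain ⟨d, rfl⟩ := Nat.exists_eq_add_of_le hl
    exact stage_compare_aux R d ψ ψ' h
  · obtain ⟨d, rfl⟩ := Nat.exists_eq_add_of_le hl
    exact (stage_compare_aux R d ψ' ψ fun k => (h k).symm).symm

/-- the class of a map of a compact space to `BU` -/
def cl (R : GBiv) {K : LC} [CompactSpace K] (φ : C(K, BG Set.univ)) : R.Hom K LC.point :=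
  R.comp (R.J (PMap.ofC (exists_stageM φ).choose_spec.choose)) (gst R (exists_stageM φ).choose)

theorem cl_eq (R : GBiv) {K : LC} [CompactSpace K] (φ : C(K, BG Set.univ)) {l : ℕ}
    (ψ : C(K, stageLC goodU l)) (h : ∀ k, (ψ k).1 = φ k) :
    cl R φ = R.comp (R.J (PMap.ofC ψ)) (gst R l) :=
  stage_compare R _ _ fun k => ((exists_stageM φ).choose_spec.choose_spec k).trans (h k).symm

theorem cl_comp (R : GBiv) {K L : LC} [CompactSpace K] [CompactSpace L] (φ : C(L, BG Set.univ))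
    (f : C(K, L)) : R.comp (R.J (PMap.ofC f)) (cl R φ) = cl R (φ.comp f) := by
  obtain ⟨l, ψ, hψ⟩ := exists_stageM φ
  rw [cl_eq R φ ψ hψ, cl_eq R (φ.comp f) (ψ.comp f) fun k => hψ (f k), ← R.assoc,
    J_ofC_comp R.toBiv]

theorem cl_homotopic (R : GBiv) {K : LC} [CompactSpace K] {φ φ' : C(K, BG Set.univ)}
    (h : φ.Homotopic φ') : cl R φ = cl R φ' := by
  obtain ⟨H⟩ := h
  have : CompactSpace (LC.I.prod K) := inferInstanceAs (CompactSpace (unitInterval × K))
  let G : C(LC.I.prod K, BG Set.univ) := ⟨fun x => H (x.1, x.2), H.continuous⟩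
  let i : unitInterval → C(K, LC.I.prod K) := fun t => ⟨fun k => (t, k), by fun_prop⟩
  have h0 : φ = G.comp (i 0) := ContinuousMap.ext fun k => (H.apply_zero k).symm
  have h1 : φ' = G.comp (i 1) := ContinuousMap.ext fun k => (H.apply_one k).symm
  rw [h0, h1, ← cl_comp, ← cl_comp]
  congr 1
  apply R.J_homotopic
  refine ⟨PMap.ofC (K := LC.I.prod K) (L := LC.I.prod K) (ContinuousMap.id _), fun k => rfl,
    fun k => rfl⟩

theorem cl_toGK (R : GBiv) {K : LC} [CompactSpace K] {k : ℕ} (ψ : C(K, Gr Set.univ k)) :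
    cl R ((toBG Set.univ k).comp ψ) = R.comp (R.J (PMap.ofC (K := K) (L := LC.G (Fin k))
      ⟨fun x => Gr.toGK (ψ x), Gr.toGK_continuous.comp ψ.continuous⟩)) (R.g (Fin k)) := by
  let χ : C(K, stageLC goodU k) := ⟨fun x => ⟨toBG Set.univ k (ψ x), ⟨_, rfl⟩⟩,
    ((toBG Set.univ k).continuous.comp ψ.continuous).subtype_mk _⟩
  rw [cl_eq R _ χ fun x => rfl]
  unfold gst
  rw [← R.assoc, ← R.J_comp]
  congr 2
  ext x
  change ((stageGK k (χ x) : LC.G (Fin k)) : OnePoint (LC.G (Fin k))) =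
    ((Gr.toGK (ψ x) : LC.G (Fin k)) : OnePoint (LC.G (Fin k)))
  congr 1
  change stageGK k ⟨toBG Set.univ k (ψ x), _⟩ = Gr.toGK (ψ x)
  induction ψ x using Quot.ind with
  | mk A => exact (exists_stageGK k).choose_spec A

theorem cl_const (R : GBiv) (K : LC) [CompactSpace K] :
    cl R (ContinuousMap.const K (BG.pt Set.univ)) = R.J (PMap.toPoint K) := by
  have h1 : ContinuousMap.const K (BG.pt Set.univ) =
      (toBG Set.univ 0).comp (ContinuousMap.const K (Gr.pt Set.univ 0)) :=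
    ContinuousMap.ext fun k => (toBG_pt Set.univ 0).symm
  rw [h1, cl_toGK]
  have h2 : PMap.ofC (K := K) (L := LC.G (Fin 0))
      ⟨fun x => Gr.toGK ((ContinuousMap.const K (Gr.pt Set.univ 0)) x),
        Gr.toGK_continuous.comp (ContinuousMap.const K (Gr.pt Set.univ 0)).continuous⟩ =
      (PMap.ofPoint (K := LC.G (Fin 0)) (GK.base (Fin 0))).comp (PMap.toPoint K) := by
    ext x
    change ((Gr.toGK (Gr.pt Set.univ 0) : LC.G (Fin 0)) : OnePoint (LC.G (Fin 0))) = _
    rw [Gr.toGK_pt]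
    rfl
  rw [h2, R.J_comp, R.assoc, R.g_base, R.comp_id]

end HurP

end Pool.Agent.Helper1.Stab
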