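import Pool.Agent.Helper73.Stab.HurA

/-! Additivity of the class of a pointed map to `BU`. -/

open CategoryTheory Topology Filter Set Opposite

noncomputable section

namespace Pool.Agent.Helper1.Stab

namespace HurP

open Pool.Agent.Helper9.Stab

/-- `BU` as a pointed space -/
abbrev YU : PT := ⟨BG Set.univ, BG.pt Set.univ⟩

/-- the extension of a pointed map to the one-point compactification -/
def hat {V : LC} {Y : PT} (f : PMap V Y) : C(cptL V, Y) := ⟨f.plus, f.continuous_plus⟩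

/-- the class of a pointed map -/
def IsTh (R : GBiv) {V : LC} (f : PMap V YU) (x : R.Hom V LC.point) : Prop :=
  R.comp (R.J (collL V)) x = cl R (K := cptL V) (hat f) - R.J (PMap.toPoint (cptL V))

theorem cl_hat_infty (R : GBiv) {V : LC} (f : PMap V YU) :
    R.comp (R.J (PMap.ofPoint (K := cptL V) OnePoint.infty))
      (cl R (K := cptL V) (hat f) - R.J (PMap.toPoint (cptL V))) = 0 := by
  have h1 : PMap.ofPoint (K := cptL V) OnePoint.infty =
      PMap.ofC (K := LC.point) (L := cptL V) (ContinuousMap.const _ OnePoint.infty) := by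
    ext x; rfl
  have h2 : (hat f).comp (ContinuousMap.const LC.point (OnePoint.infty : OnePoint V)) =
      ContinuousMap.const LC.point (BG.pt Set.univ) := by
    ext x; rfl
  rw [c_sub, h1, cl_comp, ← R.J_comp, sub_eq_zero]
  refine (congrArg (cl R (K := LC.point)) h2).trans ?_
  rw [cl_const]
  rfl

theorem IsTh.comp {R : GBiv} {V V' : LC} {f : PMap V' YU} {x : R.Hom V' LC.point} (h : IsTh R f x)
    (Q : PMap V V'.plus) : IsTh R (f.comp Q) (R.comp (R.J Q) x) := by
  unfold IsTh at h ⊢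
  let q : C(cptL V, cptL V') := ⟨Q.plus, Q.continuous_plus⟩
  have h1 : Q.comp (collL V) = (collL V').comp (PMap.ofC (K := cptL V) (L := cptL V') q) := by
    ext p
    rcases p with _ | v <;> rfl
  have h2 : (hat f).comp q = hat (f.comp Q) := by
    ext p
    exact (PMap.plus_comp f Q p).symm
  rw [← R.assoc, ← R.J_comp, h1, R.J_comp, R.assoc, h, c_sub, cl_comp, ← R.J_comp]
  rw [h2]
  rfl

theorem IsTh.homotopic {R : GBiv} {V : LC} {f g : PMap V YU} {x : R.Hom V LC.point}
    (h : IsTh R f x) (hfg : f.Homotopic g) : IsTh R g x := by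
  unfold IsTh at h ⊢
  rw [h]
  congr 1
  apply cl_homotopic
  obtain ⟨H, h0, h1⟩ := hfg
  refine ⟨⟨⟨fun y => H.plus (smashPt LC.I V (((y.1 : LC.I) : OnePoint LC.I), y.2)), ?_⟩, ?_, ?_⟩⟩
  · have h2 := (H.comp ((PMap.id LC.I).box (collL V))).cont
    exact h2
  · intro p
    rcases p with _ | v
    · rfl
    · exact h0 v
  · intro p
    rcases p with _ | v
    · rfl
    · exact h1 v

theorem IsTh.unique {R : GBiv} {e : ℕ} {f : PMap (LC.cpow (Fin e)) YU}
    {x x' : R.Hom (LC.cpow (Fin e)) LC.point} (h : IsTh R f x) (h' : IsTh R f x') : x = x' :=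
  sph_inj R.toBiv (h.trans h'.symm)

theorem exists_isTh (R : GBiv) {e : ℕ} (f : PMap (LC.cpow (Fin e)) YU) : ∃ x, IsTh R f x := by
  obtain ⟨x, hx⟩ := sph_exact R.toBiv _ (cl_hat_infty R f)
  exact ⟨x, hx.symm⟩

/-! ### The disjoint union of two affine spaces -/

/-- the radial function on two copies -/
def uV2 (e : ℕ) : C((LC.cpow (Fin e)).sum (LC.cpow (Fin e)), ℝ) :=
  ⟨Sum.elim (uV e) (uV e), (uV e).continuous.sumElim (uV e).continuous⟩

theorem uV2_tendsto (e : ℕ) :
    Tendsto (uV2 e) (cocompact ((LC.cpow (Fin e)).sum (LC.cpow (Fin e)))) (𝓝 2) := by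
  intro U hU
  obtain ⟨C, hC, h⟩ := mem_cocompact.1 (uV_tendsto e hU)
  refine mem_map.2 (mem_cocompact.2 ⟨Sum.inl '' C ∪ Sum.inr '' C,
    (hC.image continuous_inl).union (hC.image continuous_inr), ?_⟩)
  rintro (k | k) hk
  · exact h fun h => hk (Or.inl ⟨k, h, rfl⟩)
  · exact h fun h => hk (Or.inr ⟨k, h, rfl⟩)

/-- the outer part of two copies -/
def sumBf (e : ℕ) (x : MV.B (uV2 e)) : MV.B (uV e) ⊕ MV.B (uV e) :=
  match x with
    | ⟨Sum.inl k, h⟩ => Sum.inl ⟨k, h⟩
    | ⟨Sum.inr k, h⟩ => Sum.inr ⟨k, h⟩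

theorem sumBf_val (e : ℕ) (x : MV.B (uV2 e)) : Sum.map (Subtype.val : MV.B (uV e) → (Fin e → ℂ))
    (Subtype.val : MV.B (uV e) → (Fin e → ℂ)) (sumBf e x) = x.1 := by
  obtain ⟨k | k, h⟩ := x <;> rfl

theorem sumBf_continuous (e : ℕ) : Continuous (sumBf e) := by
  rw [continuous_iff_isClosed]
  intro S hS
  have h1 : IsClosedMap (Sum.map (Subtype.val : MV.B (uV e) → (Fin e → ℂ))
      (Subtype.val : MV.B (uV e) → (Fin e → ℂ))) :=
    (MV.clB (uV e)).isClosedMap_subtype_val.sumMap (MV.clB (uV e)).isClosedMap_subtype_val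
  have h2 : IsClosed ((Subtype.val : MV.B (uV2 e) → ((Fin e → ℂ) ⊕ (Fin e → ℂ))) ⁻¹'
      (Sum.map (Subtype.val : MV.B (uV e) → (Fin e → ℂ))
      (Subtype.val : MV.B (uV e) → (Fin e → ℂ)) '' S)) :=
    (h1 S hS).preimage continuous_subtype_val
  have hinj : Function.Injective (Sum.map (Subtype.val : MV.B (uV e) → (Fin e → ℂ))
      (Subtype.val : MV.B (uV e) → (Fin e → ℂ))) :=
    Subtype.val_injective.sumMap Subtype.val_injective
  have h3 : sumBf e ⁻¹' S = (Subtype.val : MV.B (uV2 e) → ((Fin e → ℂ) ⊕ (Fin e → ℂ))) ⁻¹'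
      (Sum.map (Subtype.val : MV.B (uV e) → (Fin e → ℂ))
      (Subtype.val : MV.B (uV e) → (Fin e → ℂ)) '' S) := by
    apply Set.ext
    intro x
    constructor
    · intro hx
      exact ⟨_, hx, sumBf_val e x⟩
    · rintro ⟨y, hy, he⟩
      have h4 : y = sumBf e x := hinj (he.trans (sumBf_val e x).symm)
      change sumBf e x ∈ S
      rw [← h4]
      exact hy
  rw [h3]
  exact h2

/-- the outer part of two copies -/
def sumB (e : ℕ) : MV.B (uV2 e) ≃ₜ (MV.B (uV e)).sum (MV.B (uV e)) where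
  toFun := sumBf e
  invFun x := match x with
    | Sum.inl k => ⟨Sum.inl k.1, k.2⟩
    | Sum.inr k => ⟨Sum.inr k.1, k.2⟩
  left_inv := by
    rintro ⟨k | k, h⟩ <;> rfl
  right_inv := by
    rintro (k | k) <;> rfl
  continuous_toFun := sumBf_continuous e
  continuous_invFun := by
    have h1 : Continuous (Sum.elim (fun k : MV.B (uV e) => (⟨Sum.inl k.1, k.2⟩ : MV.B (uV2 e)))
        (fun k : MV.B (uV e) => (⟨Sum.inr k.1, k.2⟩ : MV.B (uV2 e)))) :=
      ((continuous_inl.comp continuous_subtype_val).subtype_mk _).sumElim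
        ((continuous_inr.comp continuous_subtype_val).subtype_mk _)
    refine h1.congr ?_
    rintro (k | k) <;> rfl

theorem B2_null (e : ℕ) : (PMap.id (MV.B (uV2 e))).Homotopic (PMap.zero _ _) := by
  have h1 : ((PMap.inl (MV.B (uV e)) (MV.B (uV e))).copair (PMap.inr _ _)).Homotopic
      (((PMap.inl (MV.B (uV e)) (MV.B (uV e))).comp (PMap.zero _ _)).copair
        ((PMap.inr (MV.B (uV e)) (MV.B (uV e))).comp (PMap.zero _ _))) := by
    have h2 := (PMap.Homotopic.comp_right (PMap.inl (MV.B (uV e)) (MV.B (uV e))) (B_null e)).copair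
      (PMap.Homotopic.comp_right (PMap.inr (MV.B (uV e)) (MV.B (uV e))) (B_null e))
    rw [PMap.comp_id, PMap.comp_id] at h2
    exact h2
  have h3 := PMap.Homotopic.comp_right (PMap.ofHomeo (K := (MV.B (uV e)).sum (MV.B (uV e)))
    (L := MV.B (uV2 e)) (sumB e).symm)
    (PMap.Homotopic.comp_left h1 (PMap.ofHomeo (K := MV.B (uV2 e))
      (L := (MV.B (uV e)).sum (MV.B (uV e))) (sumB e)))
  have e1 : (PMap.ofHomeo (K := (MV.B (uV e)).sum (MV.B (uV e))) (L := MV.B (uV2 e))
      (sumB e).symm).comp (((PMap.inl (MV.B (uV e)) (MV.B (uV e))).copair (PMap.inr _ _)).comp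
        (PMap.ofHomeo (K := MV.B (uV2 e)) (L := (MV.B (uV e)).sum (MV.B (uV e))) (sumB e))) =
      PMap.id _ := by
    ext x
    obtain ⟨k | k, h⟩ := x <;> rfl
  have e2 : (PMap.ofHomeo (K := (MV.B (uV e)).sum (MV.B (uV e))) (L := MV.B (uV2 e))
      (sumB e).symm).comp ((((PMap.inl (MV.B (uV e)) (MV.B (uV e))).comp (PMap.zero _ _)).copair
        ((PMap.inr (MV.B (uV e)) (MV.B (uV e))).comp (PMap.zero _ _))).comp
        (PMap.ofHomeo (K := MV.B (uV2 e)) (L := (MV.B (uV e)).sum (MV.B (uV e))) (sumB e))) =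
      PMap.zero _ _ := by
    ext x
    obtain ⟨k | k, h⟩ := x <;> rfl
  rw [e1, e2] at h3
  exact h3

theorem exists_isTh2 (R : GBiv) {e : ℕ}
    (f : PMap ((LC.cpow (Fin e)).sum (LC.cpow (Fin e))) YU) : ∃ x, IsTh R f x := by
  obtain ⟨x, hx⟩ := coll_exact (uV2 e) (uV2_tendsto e) R.toBiv (B2_null e) _ (cl_hat_infty R f)
  exact ⟨x, hx.symm⟩

/-- a pinch map adds -/
theorem pinch_add' (R : Biv) {V L : LC} (P : PMap V (V.sum V).plus)
    (hl : (((PMap.id V).copair (PMap.zero _ _)).comp P).Homotopic (PMap.id V))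
    (hr : (((PMap.zero _ _).copair (PMap.id V)).comp P).Homotopic (PMap.id V))
    (x : R.Hom (V.sum V) L) :
    R.comp (R.J P) x = R.comp (R.J (PMap.inl _ _)) x + R.comp (R.J (PMap.inr _ _)) x := by
  set a := R.comp (R.J (PMap.inl V V)) x with ha
  set b := R.comp (R.J (PMap.inr V V)) x with hb
  let c1 : PMap (V.sum V) V.plus := (PMap.id V).copair (PMap.zero _ _)
  let c2 : PMap (V.sum V) V.plus := (PMap.zero _ _).copair (PMap.id V)
  have h11 : R.comp (R.J (PMap.inl V V)) (R.comp (R.J c1) a) = a := by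
    rw [← R.assoc, ← R.J_comp]
    exact R.id_comp a
  have h12 : R.comp (R.J (PMap.inr V V)) (R.comp (R.J c1) a) = 0 := by
    rw [← R.assoc, ← R.J_comp]
    have e : c1.comp (PMap.inr V V) = PMap.zero _ _ := by ext k; rfl
    rw [e, R.J_zero, z_comp]
  have h21 : R.comp (R.J (PMap.inl V V)) (R.comp (R.J c2) b) = 0 := by
    rw [← R.assoc, ← R.J_comp]
    have e : c2.comp (PMap.inl V V) = PMap.zero _ _ := by ext k; rfl
    rw [e, R.J_zero, z_comp]
  have h22 : R.comp (R.J (PMap.inr V V)) (R.comp (R.J c2) b) = b := by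
    rw [← R.assoc, ← R.J_comp]
    exact R.id_comp b
  have hx : x = R.comp (R.J c1) a + R.comp (R.J c2) b := by
    rw [← sub_eq_zero]
    apply sum_zero
    · rw [c_sub, R.comp_add, h11, h21, add_zero, ← ha, sub_self]
    · rw [c_sub, R.comp_add, h12, h22, zero_add, ← hb, sub_self]
  have e1 : R.comp (R.J P) (R.comp (R.J c1) a) = a := by
    rw [← R.assoc, ← R.J_comp, R.J_homotopic hl, R.id_comp]
  have e2 : R.comp (R.J P) (R.comp (R.J c2) b) = b := by
    rw [← R.assoc, ← R.J_comp, R.J_homotopic hr, R.id_comp]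
  rw [hx, R.comp_add, e1, e2]

/-- additivity of the class -/
theorem IsTh.add {R : GBiv} {e : ℕ} {f g h : PMap (LC.cpow (Fin e)) YU}
    (P : PMap (LC.cpow (Fin e)) ((LC.cpow (Fin e)).sum (LC.cpow (Fin e))).plus)
    (hl : (((PMap.id (LC.cpow (Fin e))).copair (PMap.zero _ _)).comp P).Homotopic (PMap.id _))
    (hr : (((PMap.zero _ _).copair (PMap.id (LC.cpow (Fin e)))).comp P).Homotopic (PMap.id _))
    (hh : h.Homotopic ((f.copair g).comp P)) {x y z : R.Hom (LC.cpow (Fin e)) LC.point}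
    (hx : IsTh R f x) (hy : IsTh R g y) (hz : IsTh R h z) : z = x + y := by
  obtain ⟨w, hw⟩ := exists_isTh2 R (f.copair g)
  have h1 : R.comp (R.J (PMap.inl _ _)) w = x := by
    have h2 := hw.comp (PMap.inl _ _)
    have h3 : (f.copair g).comp (PMap.inl _ _) = f := by ext k; rfl
    rw [h3] at h2
    exact h2.unique hx
  have h1' : R.comp (R.J (PMap.inr _ _)) w = y := by
    have h2 := hw.comp (PMap.inr _ _)
    have h3 : (f.copair g).comp (PMap.inr _ _) = g := by ext k; rfl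
    rw [h3] at h2
    exact h2.unique hy
  have h4 := (hz.homotopic hh).unique (hw.comp P)
  rw [h4, pinch_add' R.toBiv P hl hr, h1, h1']

end HurP

end Pool.Agent.Helper1.Stab
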